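import Pool.Agent.CpCH.Final

/-!
# MP_5cc1ac_gt: Q1 is independent of ZFC

* Under Martin's axiom for `ℵ₁` dense sets the answer to Q1 is yes (even for all subspaces).
* Under the continuum hypothesis the answer to Q1 is no, and the counterexample `X` can be taken
  locally countable with all closed subspaces of `C_p(X)^ω` separable.
-/

set_option autoImplicit false
open TopologicalSpace

namespace Pool.Agent.Results.MP_5cc1ac_gt.Independence

universe u

/-- The space of continuous real functions with the topology of pointwise convergence. -/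
abbrev Cp (Y : Type u) [TopologicalSpace Y] : Type u := {f : Y → ℝ // Continuous f}

/-- All closed subspaces are separable. -/
def ClosedSeparable (T : Type u) [TopologicalSpace T] : Prop :=
  ∀ S : Set T, IsClosed S → SeparableSpace S

/-- Martin's axiom for at most `ℵ₁` dense sets. -/
def MartinAxiomAlephOne : Prop := ∀ (P : Type) [PartialOrder P] [Nonempty P],
  (∀ A : Set P, (∀ a ∈ A, ∀ b ∈ A, a ≠ b → ¬ ∃ c, c ≤ a ∧ c ≤ b) → A.Countable) →
  ∀ 𝒟 : Set (Set P), Cardinal.mk 𝒟 ≤ Cardinal.aleph 1 → (∀ D ∈ 𝒟, ∀ p, ∃ q ∈ D, q ≤ p) →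
    ∃ G : Set P, (∀ p ∈ G, ∀ q, p ≤ q → q ∈ G) ∧ (∀ p ∈ G, ∀ q ∈ G, ∃ r ∈ G, r ≤ p ∧ r ≤ q) ∧
      ∀ D ∈ 𝒟, ∃ p ∈ G, p ∈ D

theorem result :
    (MartinAxiomAlephOne → ∀ (X : Type u) [TopologicalSpace X] [T35Space X],
      PerfectlyNormalSpace (Cp (Cp X)) → ∀ S : Set (Cp (Cp (Cp X))), SeparableSpace S) ∧
    (Cardinal.aleph 1 = (Cardinal.continuum : Cardinal.{0}) →
      ∃ (X : Type) (_ : TopologicalSpace X), T35Space X ∧
        PerfectlyNormalSpace (Cp (Cp X)) ∧ ¬ ClosedSeparable (Cp (Cp (Cp X))) ∧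
        (∀ x : X, ∃ U : Set X, IsOpen U ∧ x ∈ U ∧ U.Countable) ∧
        ClosedSeparable (ℕ → Cp X)) := by
  refine ⟨fun hMA X _ _ hP S => Pool.Agent.CpCH.yes_of_MA hMA X hP S, fun hCH => ?_⟩
  obtain ⟨X, tX, h1, h2, -, h3, h4, h5⟩ := Pool.Agent.CpCH.exists_counterexample hCH
  refine ⟨X, tX, h1, h2, fun h6 => ?_, h4, fun S hS => ?_⟩
  · exact h5 fun L hL => (Pool.Agent.CpPN.separable_iff L).1 (h6 L hL)
  · exact (Pool.Agent.CpPN.separable_iff S).2 (h3 S hS)

end Pool.Agent.Results.MP_5cc1ac_gt.Independence
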