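import Pool.Agent.CpPN.Embed

/-!
# MP_5cc1ac_gt: a locally countable closed subspace of a power of `X` gives a counterexample

For a Tychonoff space `X` with `C_pC_p(X)` perfectly normal (normal suffices): if some closed
subspace `T` of `X^ω` (for instance `T` closed in `X`, or in a finite power of `X`) has uncountably
many points with a countable neighbourhood in `T`, then `C_pC_pC_p(X)` has a closed subspace which
is not separable. In particular a locally countable uncountable `X` with `C_pC_p(X)` perfectly
normal is a counterexample for Q1.
-/

set_option autoImplicit false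
open TopologicalSpace Set

namespace Pool.Agent.Results.MP_5cc1ac_gt.LocallyCountable

universe u

theorem result (X : Type u) [TopologicalSpace X] [T35Space X]
    (hP : NormalSpace {g : {f : X → ℝ // Continuous f} → ℝ // Continuous g})
    (T : Set (ℕ → X)) (hT : IsClosed T)
    (hLC : ¬ {x : T | ∃ U : Set T, IsOpen U ∧ x ∈ U ∧ U.Countable}.Countable) :
    ∃ S : Set {h : {g : {f : X → ℝ // Continuous f} → ℝ // Continuous g} → ℝ // Continuous h},
      IsClosed S ∧ ¬ SeparableSpace S := by
  by_contra hcon
  push Not at hcon
  refine hLC (Pool.Agent.CpPN.countable_LC (X := X) ?_ T hT)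
  intro L hL
  exact (Pool.Agent.CpPN.separable_iff L).1 (hcon L hL)

end Pool.Agent.Results.MP_5cc1ac_gt.LocallyCountable
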