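import Pool.Agent.CpCH.Final

/-!
# MP_5cc1ac_gt: the question reduces to strong S-spaces

For a Tychonoff space `X` with `C_pC_p(X)` perfectly normal, all finite powers of `X` have countable
spread, and the following are equivalent: all subspaces of `C_pC_pC_p(X)` are separable;
`C_pC_p(X)` is Lindelof; all finite powers of `X` are Lindelof; all finite powers of `X` are
hereditarily Lindelof; no finite power of `X` contains an S-space. If these fail, then all finite
powers of `X` are hereditarily separable.
-/

set_option autoImplicit false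
open TopologicalSpace

namespace Pool.Agent.Results.MP_5cc1ac_gt.SSpaceCriterion

universe u

theorem result (X : Type u) [TopologicalSpace X] [T35Space X]
    (hP : PerfectlyNormalSpace {g : {f : X → ℝ // Continuous f} → ℝ // Continuous g}) :
    (∀ n : ℕ, ∀ D : Set (Fin n → X), DiscreteTopology D → D.Countable) ∧
    List.TFAE [
      ∀ S : Set {h : {g : {f : X → ℝ // Continuous f} → ℝ // Continuous g} → ℝ // Continuous h},
        SeparableSpace S,
      LindelofSpace {g : {f : X → ℝ // Continuous f} → ℝ // Continuous g},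
      ∀ n : ℕ, LindelofSpace (Fin n → X),
      ∀ n : ℕ, HereditarilyLindelofSpace (Fin n → X),
      ¬ ∃ n : ℕ, ∃ Y : Set (Fin n → X),
        (∀ S : Set (Fin n → X), S ⊆ Y → SeparableSpace S) ∧ ¬ LindelofSpace Y] ∧
    ((∀ n : ℕ, LindelofSpace (Fin n → X)) ∨
      ∀ n : ℕ, ∀ S : Set (Fin n → X), SeparableSpace S) := by
  obtain ⟨h1, h2⟩ := Pool.Agent.CpPN.main X hP
  refine ⟨h1, h2, ?_⟩
  by_cases h3 : ∀ n : ℕ, LindelofSpace (Fin n → X)
  · exact Or.inl h3
  · exact Or.inr (Pool.Agent.CpCH.strong_sspace X hP fun h4 => h3 ((h2.out 0 2).1 h4)).1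

end Pool.Agent.Results.MP_5cc1ac_gt.SSpaceCriterion
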